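import Pool.Agent.H2.KM.Targets
import Pool.Agent.H2.NL.Basic

/-! Row BSY of kim_modules. -/

set_option autoImplicit false

open Matrix Pool.Agent.H2.NL Pool.Agent.H2.KM Pool.Agent.H64.CC

namespace Pool.Agent.H44.KM

variable {K : Type} [Field K] {I : Type}

lemma ex_left {α : Type} : ∀ (j : ℕ) (u v : List α), j + 2 ≤ u.length → ex j (u ++ v) = ex j u ++ v
  | 0, a :: b :: l, v, _ => rfl
  | 0, [a], v, h => by simp at h
  | 0, [], v, h => by simp at h
  | j + 1, a :: l, v, h => by
    have := ex_left j l v (by simp at h; omega)
    simp [ex, this]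
  | j + 1, [], v, h => by simp at h

lemma sgx_left (o : I → Bool) : ∀ (j : ℕ) (u v : List I), j + 2 ≤ u.length →
    sgx K o j (u ++ v) = sgx K o j u
  | 0, a :: b :: l, v, _ => rfl
  | 0, [a], v, h => by simp at h
  | 0, [], v, h => by simp at h
  | j + 1, a :: l, v, h => by
    have := sgx_left o j l v (by simp at h; omega)
    simp [sgx, this]
  | j + 1, [], v, h => by simp at h

lemma ex_right {α : Type} (i : ℕ) (v : List α) : ∀ (u : List α),
    ex (u.length + i) (u ++ v) = u ++ ex i v
  | [] => by simp
  | a :: u => by
    have := ex_right i v u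
    have h : (a :: u).length + i = (u.length + i) + 1 := by simp; omega
    rw [h]
    simp [ex, this]

lemma sgx_right (o : I → Bool) (i : ℕ) (v : List I) : ∀ (u : List I),
    sgx K o (u.length + i) (u ++ v) = sgx K o i v
  | [] => by simp
  | a :: u => by
    have := sgx_right o i v u
    have h : (a :: u).length + i = (u.length + i) + 1 := by simp; omega
    rw [h]
    simp [sgx, this]

lemma ex_short {α : Type} : ∀ (j : ℕ) (u : List α), u.length < j + 2 → ex j u = u
  | 0, a :: b :: l, h => by simp at h
  | 0, [a], _ => rfl
  | 0, [], _ => rfl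
  | j + 1, a :: l, h => by
    have := ex_short j l (by simp at h; omega)
    simp [ex, this]
  | _ + 1, [], _ => rfl

lemma sgx_short (o : I → Bool) : ∀ (j : ℕ) (u : List I), u.length < j + 2 → sgx K o j u = 1
  | 0, a :: b :: l, h => by simp at h
  | 0, [a], _ => rfl
  | 0, [], _ => rfl
  | j + 1, a :: l, h => by
    have := sgx_short o j l (by simp at h; omega)
    simp [sgx, this]
  | _ + 1, [], _ => rfl

lemma Gp_true (o : I → Bool) (s : List Bool) (w : List I) : ∀ (u : List I)
    (x : List I → List I → K),
    Gp o (List.replicate u.length true ++ s) x (u ++ w) = Gp o s (fun u' v => x (u ++ u') v) w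
  | [], x => by simp
  | a :: u, x => by
    have := Gp_true o s w u (fun u v => x (a :: u) v)
    simpa [List.replicate_succ, Gp] using this

lemma Gp_false (o : I → Bool) : ∀ (v : List I) (x : List I → List I → K),
    Gp o (List.replicate v.length false) x v = x [] v
  | [], x => by simp [Gp]
  | a :: v, x => by
    have := Gp_false o v (fun u v => sgp K o a u * x u (a :: v))
    simpa [List.replicate_succ, Gp, sgp_nil] using this

theorem pf_BSY (h1 : T_OPS) (h2 : T_OPG) (h3 : T_MEM) : T_BSY := by
  intro K _ _ I _ _ F A hC n t ht hj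
  have ho : ∀ a b, F.η a b ≠ 0 → F.o a = F.o b := by
    intro a b hab
    unfold Form.η at hab
    simp only [Matrix.of_apply, ne_eq, ite_eq_right_iff, Classical.not_imp] at hab
    rw [hab.1, F.o_st]
  have hG := (h2 K I F.η F.ω F.η_mul_ω F.ω_mul_η n).1
  have hsU : ∀ j, j + 2 ≤ n → ∀ w : List I, w.length = 2 * n → sw F.o j t w = t w := by
    intro j hjn
    exact hG _ _ (((h1 K I F.o F.η ho n j t hjn).1).trans (hj j hjn).1)
  have hsL : ∀ i, i + 2 ≤ n → ∀ w : List I, w.length = 2 * n → sw F.o (n + i) t w = t w := by
    intro i hi
    have hj' : (n - 2 - i) + 2 ≤ n := by omega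
    have h := hG _ _ (((h1 K I F.o F.η ho n (n - 2 - i) t hj').2).trans (hj _ hj').2)
    have he : 2 * n - 2 - (n - 2 - i) = n + i := by omega
    rwa [he] at h
  let x : List I → List I → K := fun u v => if u.length = n ∧ v.length = n then t (u ++ v) else 0
  have hxt : ∀ u v : List I, u.length = n → v.length = n → t (u ++ v) = x u v := by
    intro u v hu hv
    simp [x, hu, hv]
  have hx0 : ∀ u v : List I, ¬ (u.length = n ∧ v.length = n) → x u v = 0 := by
    intro u v h
    simp only [x, if_neg h]
  have hGS : GS F.o x := by
    constructor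
    · intro j u v
      rw [sw_eq]
      by_cases h : u.length = n ∧ v.length = n
      · obtain ⟨hu, hv⟩ := h
        by_cases hjn : j + 2 ≤ n
        · rw [← hxt u v hu hv, ← hxt (ex j u) v (by rw [ex_length, hu]) hv,
            ← hsU j hjn (u ++ v) (by rw [List.length_append, hu, hv]; omega), sw_eq,
            ex_left j u v (by omega), sgx_left F.o j u v (by omega)]
        · rw [ex_short j u (by omega), sgx_short F.o j u (by omega), one_mul]
      · rw [hx0 u v h, hx0 (ex j u) v (by rw [ex_length]; exact h), mul_zero]
    · intro j u v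
      rw [sw_eq]
      by_cases h : u.length = n ∧ v.length = n
      · obtain ⟨hu, hv⟩ := h
        by_cases hjn : j + 2 ≤ n
        · have e1 := ex_right j v u
          have e2 := sgx_right (K := K) F.o j v u
          rw [hu] at e1 e2
          rw [← hxt u v hu hv, ← hxt u (ex j v) hu (by rw [ex_length, hv]),
            ← hsL j hjn (u ++ v) (by rw [List.length_append, hu, hv]; omega), sw_eq, e1, e2]
        · rw [ex_short j v (by omega), sgx_short F.o j v (by omega), one_mul]
      · rw [hx0 u v h, hx0 u (ex j v) (by rw [ex_length]; exact h), mul_zero]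
  refine ⟨x, hGS, hxt, ?_⟩
  intro s hs1 hs2
  have hlen : (List.replicate n true ++ List.replicate n false).length = 2 * n := by
    simp; omega
  have hperm : (List.replicate n true ++ List.replicate n false).Perm s := by
    rw [List.perm_iff_count]
    intro b
    cases b
    · simp [List.count_append, List.count_replicate, hs2]
    · simp [List.count_append, List.count_replicate, hs1]
  refine (h3 K I F A hC x hGS).1 n _ s hperm hlen ?_
  refine hC.congr n t _ ht fun w hw => ?_
  have hu : (w.take n).length = n := by rw [List.length_take]; omega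
  have hv : (w.drop n).length = n := by rw [List.length_drop]; omega
  have hw' : w = w.take n ++ w.drop n := (List.take_append_drop n w).symm
  have a1 := Gp_true (K := K) F.o (List.replicate n false) (w.drop n) (w.take n) x
  have a2 := Gp_false (K := K) F.o (w.drop n) (fun u' v => x (w.take n ++ u') v)
  rw [hu] at a1
  rw [hv] at a2
  rw [← hw', a2, List.append_nil] at a1
  rw [a1, ← hxt _ _ hu hv, ← hw']

end Pool.Agent.H44.KM
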